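import Mathlib

namespace Pool.Agent.Results.MP_122225_al.Wreath
open Finset Filter
open scoped Pointwise ENNReal

section defs
variable {S : Type} [Monoid S] {k : ℕ}

open Classical in
/-- The matrix entry `M_{st}`. -/
noncomputable def ent (x : Fin k → S) (s t : S) : ℝ := ((univ.filter fun i => x i * s = t).card : ℝ) / k

/-- The vector `v M`. -/
noncomputable def step (x : Fin k → S) (v : S → ℝ) (t : S) : ℝ := ∑' s, v s * ent x s t

/-- `M` maps `l_2(S)` into itself. -/
def Defined (x : Fin k → S) : Prop := ∀ v : S → ℝ, Summable (fun s => v s ^ 2) →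
  (∀ t, Summable fun s => v s * ent x s t) ∧ Summable fun t => step x v t ^ 2

/-- The `l_2` operator norm of `M ^ n`. -/
noncomputable def nrm (x : Fin k → S) (n : ℕ) : ℝ≥0∞ :=
  ⨆ (v : S → ℝ) (_ : Summable (fun s => v s ^ 2) ∧ ∑' s, v s ^ 2 ≤ 1),
    ENNReal.ofReal √(∑' t, (step x)^[n] v t ^ 2)

/-- The spectral radius. -/
noncomputable def rho (x : Fin k → S) : ℝ≥0∞ := liminf (fun n : ℕ => nrm x n ^ (1 / n : ℝ)) atTop

def LeftAmenable (S : Type) [Monoid S] : Prop :=
  ∃ μ : Set S → ℝ, (∀ A, 0 ≤ μ A) ∧ μ Set.univ = 1 ∧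
    (∀ A B, Disjoint A B → μ (A ∪ B) = μ A + μ B) ∧ ∀ (a : S) (A : Set S), μ {s | a * s ∈ A} = μ A
end defs

abbrev G := FreeGroup Bool

@[ext] structure S where
  A : Finset G
  g : G
deriving DecidableEq

instance : Monoid S where
  mul x y := ⟨x.A ∪ x.g • y.A, x.g * y.g⟩
  one := ⟨∅, 1⟩
  mul_assoc x y z := S.ext (by
    change (x.A ∪ x.g • y.A) ∪ (x.g * y.g) • z.A = x.A ∪ x.g • (y.A ∪ y.g • z.A)
    rw [smul_finset_union, mul_smul, union_assoc]) (mul_assoc _ _ _)
  one_mul x := S.ext (by change ∅ ∪ (1 : G) • x.A = x.A; simp) (one_mul _)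
  mul_one x := S.ext (by change x.A ∪ x.g • ∅ = x.A; simp) (mul_one _)

@[simp] lemma mul_A (x y : S) : (x * y).A = x.A ∪ x.g • y.A := rfl
@[simp] lemma mul_g (x y : S) : (x * y).g = x.g * y.g := rfl

def a : G := FreeGroup.of true
def z : S := ⟨{1}, a⟩
def X : Fin 14 → S := ![⟨∅, a⟩, ⟨∅, a⁻¹⟩, ⟨∅, .of false⟩, ⟨∅, (.of false)⁻¹⟩, z, z, z, z, z, z, z, z, z, z]

lemma gen : Submonoid.closure (Set.range X) = ⊤ := by
  have h : ∀ i, X i ∈ Submonoid.closure (Set.range X) := fun i => Submonoid.subset_closure ⟨i, rfl⟩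
  have h0 : ∀ g : G, (⟨∅, g⟩ : S) ∈ Submonoid.closure (Set.range X) := by
    intro g
    induction g using FreeGroup.induction_on with
    | C1 => exact one_mem _
    | of b => cases b; exacts [h 2, h 0]
    | inv_of b _ => cases b; exacts [h 3, h 1]
    | mul x y hx hy => convert mul_mem hx hy using 1; ext <;> simp
  rw [eq_top_iff]
  rintro ⟨A, g⟩ -
  induction A using Finset.induction_on with
  | empty => exact h0 g
  | insert c A _ ih =>
    convert mul_mem (h0 c) (mul_mem (h 4) (mul_mem (h0 (a⁻¹ * c⁻¹)) ih)) using 1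
    change _ = (⟨∅, c⟩ : S) * (z * _)
    refine S.ext ?_ (by simp [z, mul_assoc])
    simp [z, smul_smul, smul_finset_insert]

def fib (y t : S) : Finset S :=
  ({⟨y.g⁻¹ • t.A, y.g⁻¹ * t.g⟩, ⟨y.g⁻¹ • t.A.erase 1, y.g⁻¹ * t.g⟩} : Finset S).filter (y * · = t)

lemma mem_fib (i : Fin 14) (s t : S) : s ∈ fib (X i) t ↔ X i * s = t := by
  have h : (X i).A ⊆ {1} := by fin_cases i <;> simp [X, z]
  generalize X i = y at h
  refine ⟨fun h => (mem_filter.1 h).2, fun h1 => mem_filter.2 ⟨?_, h1⟩⟩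
  subst h1
  simp only [mem_insert, mem_singleton, S.ext_iff, mul_A, mul_g, inv_mul_cancel_left, and_true,
    eq_inv_smul_iff]
  rcases subset_singleton_iff.1 h with h | h
  · simp [h]
  · by_cases h1 : 1 ∈ y.g • s.A
    · simp [h, h1]
    · simp [h, h1]

lemma hasSum_step (v : S → ℝ) (t : S) :
    HasSum (fun s => v s * ent X s t) (∑ i, (∑ s ∈ fib (X i) t, v s) / 14) := by
  have h : ∀ i, HasSum (fun s => (if X i * s = t then v s else 0) / 14)
      ((∑ s ∈ fib (X i) t, v s) / 14) := fun i => by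
    refine HasSum.div_const ?_ _
    rw [← sum_congr rfl fun s hs => if_pos ((mem_fib i s t).1 hs) (t := v s) (e := 0)]
    exact hasSum_sum_of_ne_finset_zero fun s hs => if_neg (mt (mem_fib i s t).2 hs)
  convert hasSum_sum fun i _ => h i using 2 with s
  rw [ent, card_filter, ← sum_div, ← mul_div_assoc, Nat.cast_sum, mul_sum]
  congr 2
  funext i
  split_ifs <;> simp

lemma defined : Defined X := by
  intro v hv
  refine ⟨fun t => (hasSum_step v t).summable, ?_⟩
  have h1 : ∀ i, Summable fun t => ∑ s ∈ fib (X i) t, v s ^ 2 := fun i => by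
    refine summable_of_sum_le (c := ∑' s, v s ^ 2) (fun t => by positivity) fun T => ?_
    rw [← sum_biUnion fun t _ t' _ h => disjoint_left.2 fun s h1 h2 =>
      h (((mem_fib i s t).1 h1).symm.trans ((mem_fib i s t').1 h2))]
    exact hv.sum_le_tsum _ fun _ _ => by positivity
  refine .of_nonneg_of_le (fun _ => by positivity) (fun t => ?_)
    ((summable_sum (s := univ) fun i _ => h1 i).mul_left 28)
  rw [step, (hasSum_step v t).tsum_eq]
  refine sq_sum_le_card_mul_sum_sq.trans ?_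
  rw [mul_sum, mul_sum]
  refine sum_le_sum fun i _ => ?_
  have h2 := sq_sum_le_card_mul_sum_sq (s := fib (X i) t) (f := v)
  have h3 : ((fib (X i) t).card : ℝ) ≤ 2 := by
    exact_mod_cast (card_filter_le _ _).trans card_le_two
  have h4 : 0 ≤ ∑ s ∈ fib (X i) t, v s ^ 2 := by positivity
  simp only [card_univ, Fintype.card_fin, Nat.cast_ofNat, div_pow]
  nlinarith

lemma step_ge {v : S → ℝ} (hv : ∀ s, 0 ≤ v s) (t : S) (F : Finset S) (hF : ∀ s ∈ F, z * s = t) :
    5 / 7 * ∑ s ∈ F, v s ≤ step X v t := by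
  rw [step, (hasSum_step v t).tsum_eq]
  have h1 : ∑ s ∈ F, v s ≤ ∑ s ∈ fib z t, v s :=
    sum_le_sum_of_subset_of_nonneg (fun s hs => (mem_fib 4 s t).2 (hF s hs)) fun s _ _ => hv s
  have h2 : ∀ i, 0 ≤ ∑ s ∈ fib (X i) t, v s := fun i => sum_nonneg fun s _ => hv s
  have h3 := h2 0
  have h4 := h2 1
  have h5 := h2 2
  have h6 := h2 3
  simp only [Fin.sum_univ_succ, X, Matrix.cons_val_zero, Matrix.cons_val_succ, Matrix.cons_val,
    univ_eq_empty, sum_empty] at h3 h4 h5 h6 ⊢
  linarith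

lemma iter_ge (n : ℕ) : ∀ {v : S → ℝ} (_ : ∀ s, 0 ≤ v s) (t : S) (F : Finset S)
    (_ : ∀ s ∈ F, z ^ n * s = t), (5 / 7) ^ n * ∑ s ∈ F, v s ≤ (step X)^[n] v t := by
  induction n with
  | zero =>
    intro v hv t F hF
    have : F ⊆ {t} := fun s hs => by simpa using hF s hs
    simpa using sum_le_sum_of_subset_of_nonneg this fun s _ _ => hv s
  | succ n ih =>
    intro v hv t F hF
    have h1 := ih (v := step X v) (fun s => by simpa using step_ge hv s ∅ (by simp)) t
      (F.image (z * ·)) (fun s hs => by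
        obtain ⟨s', hs', rfl⟩ := mem_image.1 hs
        rw [← mul_assoc, ← pow_succ, hF s' hs'])
    refine le_trans ?_ h1
    rw [pow_succ, mul_assoc, ← sum_fiberwise_of_maps_to (t := F.image (z * ·)) (g := (z * ·))
      fun s hs => mem_image_of_mem _ hs, mul_sum]
    gcongr with s hs
    exact step_ge hv s _ fun s hs => (mem_filter.1 hs).2

lemma zpow (n : ℕ) : z ^ n = ⟨(range n).image (a ^ ·), a ^ n⟩ := by
  induction n with
  | zero => rfl
  | succ n ih =>
    rw [pow_succ, ih]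
    refine S.ext ?_ (by simp [z, pow_succ])
    simp [z, range_add_one]

lemma one_le (n : ℕ) : 1 ≤ nrm X n := by
  let P := (range n).image (a ^ ·)
  have hP : P.card = n := by
    rw [card_image_of_injective _ fun i j h => by
      simpa [a] using congrArg FreeGroup.norm h, card_range]
  let F : Finset S := P.powerset.image fun B => ⟨(a ^ n)⁻¹ • B, 1⟩
  have hF : F.card = 2 ^ n := by
    rw [card_image_of_injective _ fun B C h => by simpa using h, card_powerset, hP]
  let c : ℝ := 1 / √2 ^ n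
  have hc : 2 ^ n * c ^ 2 = 1 := by
    rw [div_pow, ← pow_mul, mul_comm n, pow_mul, Real.sq_sqrt (by norm_num)]
    field_simp
  let v : S → ℝ := fun s => if s ∈ F then c else 0
  have h1 : HasSum (fun s => v s ^ 2) 1 := by
    have e : ∑ s ∈ F, v s ^ 2 = 1 := by
      rw [sum_congr rfl fun s hs => show v s ^ 2 = c ^ 2 by rw [show v s = c from if_pos hs]]
      simp [hF, hc]
    rw [← e]
    exact hasSum_sum_of_ne_finset_zero fun s hs => by simp [v, hs]
  have h2 : ∀ m, Summable fun t => (step X)^[m] v t ^ 2 := fun m => by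
    induction m with
    | zero => exact h1.summable
    | succ m ih => rw [Function.iterate_succ_apply']; exact (defined _ ih).2
  have h3 := iter_ge n (v := v) (fun s => by simp only [v]; split_ifs <;> positivity) (z ^ n) F
    (fun s hs => by
      obtain ⟨B, hB, rfl⟩ := mem_image.1 hs
      rw [zpow]
      exact S.ext (by simpa using hB) (by simp))
  rw [sum_congr rfl fun s hs => show v s = c from if_pos hs, sum_const, hF] at h3
  have h4 := (h2 n).le_tsum (z ^ n) fun _ _ => by positivity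
  refine le_iSup₂_of_le v ⟨h1.summable, h1.tsum_eq.le⟩ ?_
  rw [ENNReal.one_le_ofReal, Real.one_le_sqrt]
  refine le_trans ?_ ((pow_le_pow_left₀ (by positivity) h3 2).trans h4)
  have h5 : (((5 : ℝ) / 7) ^ n * (2 ^ n) • c) ^ 2 = (50 / 49) ^ n * (2 ^ n * c ^ 2) := by
    rw [nsmul_eq_mul, show (50 : ℝ) / 49 = 5 / 7 * (5 / 7) * 2 by norm_num,
      mul_pow (5 / 7 * (5 / 7) : ℝ), mul_pow (5 / 7 : ℝ)]
    push_cast
    ring
  rw [h5, hc, mul_one]
  exact one_le_pow₀ (by norm_num)

lemma not_amen : ¬ LeftAmenable S := by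
  rintro ⟨μ, h0, h1, h2, h3⟩
  have mono : ∀ A B, A ⊆ B → μ A ≤ μ B := fun A B h => by
    have := h2 A (B \ A) Set.disjoint_sdiff_right
    rw [Set.union_sdiff_cancel h] at this
    linarith [h0 (B \ A)]
  let W : Bool × Bool → Set S := fun w => {s | s.g ∈ FreeGroup.startsWith w}
  have hW : ∀ w w', w ≠ w' → Disjoint (W w) (W w') := fun w w' h =>
    (FreeGroup.startsWith.disjoint_iff_ne.2 h).preimage S.g
  have h4 : ∀ c, 1 ≤ μ (W (c, true)) + μ (W (c, false)) := fun c => by
    have e1 := h2 (W (c, false)) _ disjoint_compl_right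
    have e2 := mono (W (c, false))ᶜ {s | (⟨∅, .mk [(c, true)]⟩ : S) * s ∈ W (c, true)}
      fun s hs => FreeGroup.startsWith_mk_mul _ hs
    rw [h3] at e2
    rw [Set.union_compl_self] at e1
    linarith
  have e1 := h2 _ _ (hW (true, true) (true, false) (by simp))
  have e2 := h2 _ _ (hW (false, true) (false, false) (by simp))
  have e3 := h2 (W (true, true) ∪ W (true, false)) (W (false, true) ∪ W (false, false)) (by
    simp only [Set.disjoint_union_left, Set.disjoint_union_right]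
    refine ⟨⟨?_, ?_⟩, ?_, ?_⟩ <;> exact hW _ _ (by simp))
  linarith [h4 true, h4 false, mono _ _ (Set.subset_univ
    (W (true, true) ∪ W (true, false) ∪ (W (false, true) ∪ W (false, false))))]

theorem result : ∃ (S : Type) (_ : Monoid S) (k : ℕ) (x : Fin k → S),
    Submonoid.closure (Set.range x) = ⊤ ∧ (∀ a b : S, ∃ c d, a * c = b * d) ∧
    (∀ s u w : S, s * u = s * w → ∃ t, u * t = w * t) ∧ Defined x ∧ 1 ≤ rho x ∧ 1 ≤ nrm x 1 ∧
    ¬ LeftAmenable S := by
  refine ⟨S, inferInstance, 14, X, gen, fun a b => ⟨⟨a.g⁻¹ • b.A, a.g⁻¹⟩, ⟨b.g⁻¹ • a.A, b.g⁻¹⟩, ?_⟩,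
    fun s u w h => ⟨⟨u.g⁻¹ • (u.A ∪ w.A), 1⟩, ?_⟩, defined, ?_, one_le 1, not_amen⟩
  · ext <;> simp [or_comm]
  · have : u.g = w.g := by simpa using congrArg S.g h
    ext <;> simp [this]
    tauto
  · refine le_liminf_of_le (h := (eventually_gt_atTop 0).mono fun n hn => ?_)
    exact ENNReal.one_le_rpow (one_le n) (by positivity)

end Pool.Agent.Results.MP_122225_al.Wreath
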